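import Mathlib

/-!
# The MLE for multivariate scale mixtures of uniforms at the origin

For every `d ≥ 2` there is a scale mixture of uniforms `f₀` with `f₀(0) = 1` for which the value
at the origin of the maximum likelihood estimator is not `O_P((log n)^{d-1})`; more generally it
is not `O_P(φ(n))` for a given `φ(n) = o((log n)^d)`.

Idea.  The first-order condition gives `f̂(X_i) ≥ 1 / (2 n |X_i|)`, and
`f̂(0) ≥ ∑_i f̂(X_i) - ∑_{i ≠ i'} f̂(X_i ⊔ X_{i'})`.  We mix uniform distributions on boxes of unit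
volume of extremely different shapes (blocks of very many boxes of tiny weight), so that the
second sum is small and the first one is a sum of independent truncated variables with mean of
order `2^{-j} (log n_j)^d` along a sparse sequence `n_j`.
-/

open MeasureTheory ProbabilityTheory Filter Topology Set
open scoped ENNReal

namespace Pool.Agent.Results.MP_a4ac49_pr.SizeAtOrigin

/-! ### The model -/

/-- `G ∈ 𝒢_d`: a probability distribution carried by `(0, ∞)^d`. -/
def Mixing {d : ℕ} (G : Measure (Fin d → ℝ)) : Prop :=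
  IsProbabilityMeasure G ∧ ∀ᵐ y ∂G, ∀ r, 0 < y r

/-- The scale mixture of uniform densities `f_G(x) = ∫_{y ≥ x} 1 / |y| dG(y)`. -/
noncomputable def dens {d : ℕ} (G : Measure (Fin d → ℝ)) (x : Fin d → ℝ) : ℝ≥0∞ :=
  ∫⁻ y, {y | x ≤ y}.indicator (fun y => ENNReal.ofReal (1 / ∏ r, y r)) y ∂G

/-- The value at the origin `f_G(0) = ∫ 1 / |y| dG(y)`. -/
noncomputable def atZero {d : ℕ} (G : Measure (Fin d → ℝ)) : ℝ≥0∞ :=
  ∫⁻ y, ENNReal.ofReal (1 / ∏ r, y r) ∂G

/-- The law on `(0, ∞)^d` with density `f_G`. -/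
noncomputable def law {d : ℕ} (G : Measure (Fin d → ℝ)) : Measure (Fin d → ℝ) :=
  (volume.restrict {x | ∀ r, 0 < x r}).withDensity (dens G)

/-- The log-likelihood `∑ log f_G(x_i)` with values in `[-∞, ∞]`. -/
noncomputable def logLik {d n : ℕ} (x : Fin n → Fin d → ℝ) (G : Measure (Fin d → ℝ)) : EReal :=
  ∑ i, ENNReal.log (dens G (x i))

/-- `G` maximises the log-likelihood of the data `x` over `𝒢_d`. -/
def IsMLE {d n : ℕ} (x : Fin n → Fin d → ℝ) (G : Measure (Fin d → ℝ)) : Prop :=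
  Mixing G ∧ ∀ G' : Measure (Fin d → ℝ), Mixing G' → logLik x G' ≤ logLik x G

/-! ### Deterministic facts -/

section det

variable {d : ℕ}

lemma meas_v : Measurable fun y : Fin d → ℝ => ENNReal.ofReal (1 / ∏ r, y r) := by
  apply ENNReal.measurable_ofReal.comp
  apply Measurable.div measurable_const
  fun_prop

lemma meas_pos : MeasurableSet {y : Fin d → ℝ | ∀ r, 0 < y r} := by
  have : {y : Fin d → ℝ | ∀ r, 0 < y r} = ⋂ r, {y | 0 < y r} := by ext; simp
  rw [this]
  exact MeasurableSet.iInter fun r => measurableSet_lt measurable_const (measurable_pi_apply r)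

lemma meas_ge (x : Fin d → ℝ) : MeasurableSet {y : Fin d → ℝ | x ≤ y} := measurableSet_Ici

lemma dens_le {G : Measure (Fin d → ℝ)} (hG : Mixing G) {x : Fin d → ℝ} (hx : ∀ r, 0 < x r) :
    dens G x ≤ ENNReal.ofReal (1 / ∏ r, x r) := by
  have := hG.1
  calc dens G x ≤ ∫⁻ _, ENNReal.ofReal (1 / ∏ r, x r) ∂G := by
        apply lintegral_mono
        intro y
        by_cases h : x ≤ y
        · rw [indicator_of_mem (by exact h)]
          apply ENNReal.ofReal_le_ofReal
          apply one_div_le_one_div_of_le (Finset.prod_pos fun r _ => hx r)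
          exact Finset.prod_le_prod (fun r _ => (hx r).le) fun r _ => h r
        · rw [indicator_of_notMem (by exact h)]
          exact bot_le
    _ = ENNReal.ofReal (1 / ∏ r, x r) := by simp

lemma dens_dirac (z x : Fin d → ℝ) :
    dens (Measure.dirac z) x = {y | x ≤ y}.indicator (fun y => ENNReal.ofReal (1 / ∏ r, y r)) z := by
  unfold dens
  rw [lintegral_dirac' _ (meas_v.indicator (meas_ge x))]

lemma sum_log {ι : Type*} (s : Finset ι) (f : ι → ℝ≥0∞) :
    ∑ i ∈ s, ENNReal.log (f i) = ENNReal.log (∏ i ∈ s, f i) := by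
  classical
  induction s using Finset.induction_on with
  | empty => simp
  | insert a s ha ih => rw [Finset.sum_insert ha, Finset.prod_insert ha, ENNReal.log_mul_add, ih]

lemma IsMLE.prod_le {n : ℕ} {x : Fin n → Fin d → ℝ} {G : Measure (Fin d → ℝ)} (h : IsMLE x G)
    {G' : Measure (Fin d → ℝ)} (hG' : Mixing G') :
    ∏ i, dens G' (x i) ≤ ∏ i, dens G (x i) := by
  have h1 := h.2 G' hG'
  unfold logLik at h1
  rw [sum_log, sum_log, ENNReal.log_le_log_iff] at h1
  exact h1

lemma IsMLE.ne_zero {n : ℕ} {x : Fin n → Fin d → ℝ} {G : Measure (Fin d → ℝ)} (h : IsMLE x G)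
    (hx : ∀ i r, 0 < x i r) (k : Fin n) : dens G (x k) ≠ 0 := by
  set z : Fin d → ℝ := fun r => ∑ i, x i r with hz
  have hz0 : ∀ r, 0 < z r := fun r => Finset.sum_pos (fun i _ => hx i r) ⟨k, Finset.mem_univ k⟩
  have hzx : ∀ i, x i ≤ z := fun i r =>
    Finset.single_le_sum (f := fun i => x i r) (fun j _ => (hx j r).le) (Finset.mem_univ i)
  have hM : Mixing (Measure.dirac z) := by
    refine ⟨inferInstance, ?_⟩
    rw [ae_dirac_iff]
    · exact hz0
    · exact meas_pos
  have h1 := h.prod_le hM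
  have h2 : ∀ i, dens (Measure.dirac z) (x i) = ENNReal.ofReal (1 / ∏ r, z r) := by
    intro i
    rw [dens_dirac, indicator_of_mem (by exact hzx i)]
  have h3 : 0 < ENNReal.ofReal (1 / ∏ r, z r) :=
    ENNReal.ofReal_pos.mpr (one_div_pos.mpr (Finset.prod_pos fun r _ => hz0 r))
  intro hcon
  have h4 : ∏ i, dens G (x i) = 0 := Finset.prod_eq_zero (Finset.mem_univ k) hcon
  rw [h4] at h1
  have h5 : ∏ i : Fin n, dens (Measure.dirac z) (x i) ≠ 0 := by
    rw [Finset.prod_ne_zero_iff]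
    intro i _
    rw [h2 i]
    exact h3.ne'
  exact h5 (le_antisymm h1 bot_le)

/-- First-order condition: `f̂(X_k) ≥ 1 / (2 n |X_k|)`. -/
lemma IsMLE.lower {n : ℕ} {x : Fin n → Fin d → ℝ} {G : Measure (Fin d → ℝ)} (h : IsMLE x G)
    (hx : ∀ i r, 0 < x i r) (k : Fin n) :
    ENNReal.ofReal (1 / ∏ r, x k r) ≤ ENNReal.ofReal (2 * n) * dens G (x k) := by
  have hprob := h.1.1
  have hn : (0:ℝ) < n := by
    have : 0 < n := lt_of_le_of_lt (Nat.zero_le _) k.2
    exact_mod_cast this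
  have hn1 : (1:ℝ) ≤ n := by
    have : 1 ≤ n := lt_of_le_of_lt (Nat.zero_le _) k.2
    exact_mod_cast this
  set ε : ℝ := 1 / (2 * n) with hε
  have hε0 : 0 < ε := by positivity
  have hε1 : ε < 1 := by
    rw [hε, div_lt_one (by positivity)]
    linarith
  have hεn : (n:ℝ) * ε = 1 / 2 := by rw [hε]; field_simp
  set G' : Measure (Fin d → ℝ) :=
    ENNReal.ofReal (1 - ε) • G + ENNReal.ofReal ε • Measure.dirac (x k) with hG'
  have hM : Mixing G' := by
    constructor
    · constructor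
      rw [hG', Measure.add_apply, Measure.smul_apply, Measure.smul_apply, measure_univ,
        measure_univ, smul_eq_mul, smul_eq_mul, mul_one, mul_one,
        ← ENNReal.ofReal_add (by linarith) hε0.le]
      simp
    · rw [hG', ae_add_measure_iff]
      constructor
      · exact Measure.ae_smul_measure h.1.2 _
      · apply Measure.ae_smul_measure
        rw [ae_dirac_iff]
        · exact hx k
        · exact meas_pos
  have hdens : ∀ z, dens G' z = ENNReal.ofReal (1 - ε) * dens G z +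
      ENNReal.ofReal ε * dens (Measure.dirac (x k)) z := by
    intro z
    unfold dens
    rw [hG', lintegral_add_measure, lintegral_smul_measure, lintegral_smul_measure, smul_eq_mul,
      smul_eq_mul]
  have h1 := h.prod_le hM
  -- real versions
  set a : Fin n → ℝ := fun i => (dens G (x i)).toReal with ha
  have hfin : ∀ i, dens G (x i) ≠ ⊤ := fun i =>
    ((dens_le h.1 (hx i)).trans_lt ENNReal.ofReal_lt_top).ne
  have hne : ∀ i, dens G (x i) ≠ 0 := h.ne_zero hx
  have hapos : ∀ i, 0 < a i := fun i => ENNReal.toReal_pos (hne i) (hfin i)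
  have haeq : ∀ i, dens G (x i) = ENNReal.ofReal (a i) := fun i =>
    (ENNReal.ofReal_toReal (hfin i)).symm
  set v : ℝ := 1 / ∏ r, x k r with hv
  have hv0 : 0 < v := one_div_pos.mpr (Finset.prod_pos fun r _ => hx k r)
  have h2 : ∏ i, dens G (x i) = ENNReal.ofReal (∏ i, a i) := by
    rw [ENNReal.ofReal_prod_of_nonneg fun i _ => (hapos i).le]
    exact Finset.prod_congr rfl fun i _ => haeq i
  have h3 : ENNReal.ofReal ((∏ i ∈ Finset.univ.erase k, ((1 - ε) * a i)) *
      ((1 - ε) * a k + ε * v)) ≤ ∏ i, dens G' (x i) := by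
    rw [← Finset.mul_prod_erase _ _ (Finset.mem_univ k), mul_comm (dens G' (x k)),
      ENNReal.ofReal_mul (Finset.prod_nonneg fun i _ => mul_nonneg (by linarith) (hapos i).le),
      ENNReal.ofReal_prod_of_nonneg fun i _ => mul_nonneg (by linarith) (hapos i).le]
    apply mul_le_mul'
    · apply Finset.prod_le_prod' 
      intro i _
      rw [hdens, haeq i, ← ENNReal.ofReal_mul (by linarith)]
      exact le_self_add
    · rw [hdens, haeq k, dens_dirac, indicator_of_mem (by simp),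
        ← ENNReal.ofReal_mul (by linarith), ← ENNReal.ofReal_mul hε0.le,
        ← ENNReal.ofReal_add (mul_nonneg (by linarith) (hapos k).le) (by positivity)]
  have h4 := h3.trans h1
  rw [h2, ENNReal.ofReal_le_ofReal_iff (Finset.prod_nonneg fun i _ => (hapos i).le)] at h4
  rw [← Finset.mul_prod_erase _ _ (Finset.mem_univ k), Finset.prod_mul_distrib,
    Finset.prod_const, Finset.card_erase_of_mem (Finset.mem_univ k), Finset.card_univ,
    Fintype.card_fin] at h4
  have hQ : 0 < ∏ i ∈ Finset.univ.erase k, a i := Finset.prod_pos fun i _ => hapos i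
  have h5 : (1 - ε) ^ (n - 1) * ((1 - ε) * a k + ε * v) ≤ a k := by
    have h6 : (∏ i ∈ Finset.univ.erase k, a i) * ((1 - ε) ^ (n - 1) * ((1 - ε) * a k + ε * v)) ≤
        (∏ i ∈ Finset.univ.erase k, a i) * a k := by
      calc _ = (1 - ε) ^ (n - 1) * (∏ i ∈ Finset.univ.erase k, a i) *
            ((1 - ε) * a k + ε * v) := by ring
        _ ≤ _ := h4
        _ = _ := by ring
    exact le_of_mul_le_mul_left h6 hQ
  have hb1 : 1 - (n:ℝ) * ε ≤ (1 - ε) ^ n := by
    have := one_add_mul_le_pow (a := -ε) (by linarith) n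
    have h7 : (1:ℝ) + n * -ε = 1 - n * ε := by ring
    rw [h7] at this
    simpa [sub_eq_add_neg] using this
  have hb2 : (1 - ε) ^ n ≤ (1 - ε) ^ (n - 1) :=
    pow_le_pow_of_le_one (by linarith) (by linarith) (Nat.sub_le _ _)
  have hb3 : (1 - ε) ^ (n - 1) * (1 - ε) = (1 - ε) ^ n := by
    rw [← pow_succ]
    congr 1
    have : 1 ≤ n := lt_of_le_of_lt (Nat.zero_le _) k.2
    omega
  have h8 : (1 / 2) * a k + (1 / 2) * (ε * v) ≤ a k := by
    have e1 : (1 - ε) ^ (n - 1) * ((1 - ε) * a k + ε * v) =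
        (1 - ε) ^ n * a k + (1 - ε) ^ (n - 1) * (ε * v) := by
      rw [mul_add, ← mul_assoc, hb3]
    rw [e1] at h5
    have e2 : (1 / 2) * a k ≤ (1 - ε) ^ n * a k :=
      mul_le_mul_of_nonneg_right (by linarith) (hapos k).le
    have e3 : (1 / 2) * (ε * v) ≤ (1 - ε) ^ (n - 1) * (ε * v) :=
      mul_le_mul_of_nonneg_right (by linarith) (by positivity)
    linarith
  have h9 : v ≤ 2 * n * a k := by
    have e4 : ε * v ≤ a k := by linarith
    have e5 : v = 2 * n * (ε * v) := by rw [hε]; field_simp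
    rw [e5]
    exact mul_le_mul_of_nonneg_left e4 (by positivity)
  rw [haeq k, ← ENNReal.ofReal_mul (by positivity)]
  exact ENNReal.ofReal_le_ofReal h9

/-- Bonferroni. -/
lemma sum_dens_le {ι : Type*} [DecidableEq ι] (I : Finset ι) (z : ι → Fin d → ℝ)
    (G : Measure (Fin d → ℝ)) :
    ∑ i ∈ I, dens G (z i) ≤ atZero G + ∑ q ∈ I.offDiag, dens G (z q.1 ⊔ z q.2) := by
  unfold dens atZero
  rw [← lintegral_finsetSum _ fun i _ => meas_v.indicator (meas_ge _),
    ← lintegral_finsetSum _ fun i _ => meas_v.indicator (meas_ge _),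
    ← lintegral_add_left meas_v]
  apply lintegral_mono
  intro y
  classical
  set v := ENNReal.ofReal (1 / ∏ r, y r) with hv
  set J := I.filter fun i => z i ≤ y with hJ
  have h1 : ∑ i ∈ I, {y | z i ≤ y}.indicator (fun y => ENNReal.ofReal (1 / ∏ r, y r)) y =
      (J.card : ℝ≥0∞) * v := by
    rw [← nsmul_eq_mul, ← Finset.sum_const, hJ, Finset.sum_filter]
    apply Finset.sum_congr rfl
    intro i _
    by_cases h : z i ≤ y
    · simp [h, hv]
    · simp [h]
  have h2 : (J.offDiag.card : ℝ≥0∞) * v ≤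
      ∑ q ∈ I.offDiag, {y | z q.1 ⊔ z q.2 ≤ y}.indicator
        (fun y => ENNReal.ofReal (1 / ∏ r, y r)) y := by
    rw [← nsmul_eq_mul, ← Finset.sum_const]
    have hsub : J.offDiag ⊆ I.offDiag := by
      intro q hq
      simp only [Finset.mem_offDiag, hJ, Finset.mem_filter] at hq ⊢
      exact ⟨hq.1.1, hq.2.1.1, hq.2.2⟩
    refine le_trans (Finset.sum_le_sum ?_) (Finset.sum_le_sum_of_subset hsub)
    intro q hq
    simp only [Finset.mem_offDiag, hJ, Finset.mem_filter] at hq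
    rw [indicator_of_mem (by exact sup_le hq.1.2 hq.2.1.2)]
  have h3 : (J.card : ℝ≥0∞) ≤ 1 + J.offDiag.card := by
    rw [Finset.offDiag_card]
    have : J.card ≤ 1 + (J.card * J.card - J.card) := by
      rcases Nat.lt_or_ge J.card 2 with h | h
      · omega
      · have := Nat.mul_le_mul h (le_refl J.card)
        omega
    exact_mod_cast this
  show ∑ i ∈ I, {y | z i ≤ y}.indicator (fun y => ENNReal.ofReal (1 / ∏ r, y r)) y ≤ 
    v + ∑ q ∈ I.offDiag, {y | z q.1 ⊔ z q.2 ≤ y}.indicator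
        (fun y => ENNReal.ofReal (1 / ∏ r, y r)) y
  rw [h1]
  calc (J.card : ℝ≥0∞) * v ≤ (1 + J.offDiag.card) * v := mul_le_mul_left h3 _
    _ = v + J.offDiag.card * v := by rw [add_mul, one_mul]
    _ ≤ _ := by gcongr

end det


/-! ### The construction -/

section constr

variable (e : ℕ) (m : ℕ → ℕ)

/-- sample sizes -/
def nn (j : ℕ) : ℕ := (m j) ^ (e + 2)

/-- scales -/
noncomputable def A (i : ℕ) : ℝ := ∏ t ∈ Finset.range (i + 1), (nn e m t : ℝ) ^ 3

/-- index of a component -/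
def ix (p : ℕ × ℕ) : ℕ := Nat.pair p.1 p.2

/-- the corner of the box of a component -/
noncomputable def yy (p : ℕ × ℕ) : Fin (e + 2) → ℝ :=
  Fin.cons (A e m (ix p)) (Fin.cons (A e m (ix p))⁻¹ fun _ => 1)

/-- the weight of a component -/
noncomputable def wt (p : ℕ × ℕ) : ℝ :=
  if p.2 < (nn e m p.1) ^ 3 then (1 / 2) ^ (p.1 + 1) / (nn e m p.1 : ℝ) ^ 3 else 0

/-- the mixing distribution -/
noncomputable def G0 : Measure (Fin (e + 2) → ℝ) :=
  Measure.sum fun p : ℕ × ℕ => ENNReal.ofReal (wt e m p) • Measure.dirac (yy e m p)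

/-- the good part of the box of a component -/
noncomputable def R (p : ℕ × ℕ) : Set (Fin (e + 2) → ℝ) :=
  Set.pi univ fun r => Ioc ((m p.1 : ℝ)⁻¹ * yy e m p r) (yy e m p r)

lemma wt_nonneg (p : ℕ × ℕ) : 0 ≤ wt e m p := by
  unfold wt
  split_ifs <;> positivity

variable {e m}

lemma nn_pos (hm : ∀ j, 2 ≤ m j) (j : ℕ) : (1:ℝ) ≤ nn e m j := by
  unfold nn
  have : 1 ≤ (m j) ^ (e + 2) := Nat.one_le_pow _ _ (by have := hm j; omega)
  exact_mod_cast this

lemma nn_ge (hm : ∀ j, 2 ≤ m j) (j : ℕ) : (m j : ℝ) ≤ nn e m j := by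
  unfold nn
  have : m j ≤ (m j) ^ (e + 2) := Nat.le_self_pow (by omega) _
  exact_mod_cast this

lemma nn_mono (hmono : Monotone m) : Monotone (nn e m) := fun a b hab =>
  Nat.pow_le_pow_left (hmono hab) _

lemma A_pos (hm : ∀ j, 2 ≤ m j) (i : ℕ) : 0 < A e m i := by
  unfold A
  apply Finset.prod_pos
  intro t _
  have := nn_pos (e := e) hm t
  positivity

lemma A_succ (i : ℕ) : A e m (i + 1) = A e m i * (nn e m (i + 1) : ℝ) ^ 3 := by
  unfold A
  rw [Finset.prod_range_succ]

lemma A_mono (hm : ∀ j, 2 ≤ m j) : Monotone (A e m) := by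
  apply monotone_nat_of_le_succ
  intro i
  rw [A_succ]
  have h1 := nn_pos (e := e) hm (i + 1)
  have h2 := A_pos (e := e) hm i
  have h3 : (1:ℝ) ≤ (nn e m (i + 1) : ℝ) ^ 3 := one_le_pow₀ h1
  nlinarith

lemma A_ratio (hm : ∀ j, 2 ≤ m j) (hmono : Monotone m) {i i' j : ℕ} (h : i < i') (hj : j ≤ i') :
    A e m i * (nn e m j : ℝ) ^ 3 ≤ A e m i' := by
  obtain ⟨k, rfl⟩ : ∃ k, i' = k + 1 := ⟨i' - 1, by omega⟩
  rw [A_succ]
  have h1 := A_pos (e := e) hm i
  have h2 : A e m i ≤ A e m k := A_mono hm (by omega)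
  have h3 : (nn e m j : ℝ) ≤ nn e m (k + 1) := by exact_mod_cast nn_mono hmono hj
  have h4 := nn_pos (e := e) hm j
  have h5 := A_pos (e := e) hm k
  gcongr

lemma yy_zero (p : ℕ × ℕ) : yy e m p 0 = A e m (ix p) := rfl
lemma yy_one (p : ℕ × ℕ) : yy e m p 1 = (A e m (ix p))⁻¹ := rfl
lemma yy_two (p : ℕ × ℕ) (r : Fin e) : yy e m p r.succ.succ = 1 := rfl

lemma forall_fin {Q : Fin (e + 2) → Prop} (h0 : Q 0) (h1 : Q 1) (h2 : ∀ r : Fin e, Q r.succ.succ) :
    ∀ r, Q r := by
  intro r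
  refine Fin.cases h0 (fun r => ?_) r
  exact Fin.cases h1 (fun r => h2 r) r

lemma yy_pos (hm : ∀ j, 2 ≤ m j) (p : ℕ × ℕ) : ∀ r, 0 < yy e m p r := by
  have := A_pos (e := e) hm (ix p)
  apply forall_fin
  · exact this
  · exact inv_pos.mpr this
  · intro r; rw [yy_two]; exact one_pos

lemma prod_cons2 (a b : ℝ) :
    ∏ r : Fin (e + 2), (Fin.cons a (Fin.cons b fun _ => 1) : Fin (e + 2) → ℝ) r = a * b := by
  rw [Fin.prod_univ_succ, Fin.prod_univ_succ]
  simp

lemma prod_yy (hm : ∀ j, 2 ≤ m j) (p : ℕ × ℕ) : ∏ r, yy e m p r = 1 := by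
  unfold yy
  rw [prod_cons2, mul_inv_cancel₀ (A_pos hm _).ne']

lemma ix_ne {p q : ℕ × ℕ} (h : p ≠ q) : ix p ≠ ix q := by
  intro hcon
  apply h
  unfold ix at hcon
  have := Nat.pair_eq_pair.mp hcon
  exact Prod.ext this.1 this.2

lemma le_ix (p : ℕ × ℕ) : p.1 ≤ ix p := Nat.left_le_pair _ _

lemma R_pos (hm : ∀ j, 2 ≤ m j) {p : ℕ × ℕ} {x : Fin (e + 2) → ℝ} (hx : x ∈ R e m p) :
    ∀ r, 0 < x r := by
  intro r
  have h1 := (hx r (mem_univ r)).1
  have h2 := yy_pos hm p r
  have h3 : (0:ℝ) ≤ (m p.1 : ℝ)⁻¹ := by positivity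
  have := mul_nonneg h3 h2.le
  linarith

lemma R_le {p : ℕ × ℕ} {x : Fin (e + 2) → ℝ} (hx : x ∈ R e m p) : x ≤ yy e m p :=
  fun r => (hx r (mem_univ r)).2

/-- separation -/
lemma R_sep (hm : ∀ j, 2 ≤ m j) (hmono : Monotone m) {p q : ℕ × ℕ} (hpq : q ≠ p)
    {x : Fin (e + 2) → ℝ} (hx : x ∈ R e m p) : ¬ x ≤ yy e m q := by
  intro hle
  have hm0 : (2:ℝ) ≤ m p.1 := by exact_mod_cast hm p.1
  have hp := A_pos (e := e) hm (ix p)
  have hq := A_pos (e := e) hm (ix q)
  have hnn := nn_ge (e := e) hm p.1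
  have hnn1 := nn_pos (e := e) hm p.1
  have hcube : (m p.1 : ℝ) ≤ (nn e m p.1 : ℝ) ^ 3 := by
    calc (m p.1 : ℝ) ≤ nn e m p.1 := hnn
      _ ≤ (nn e m p.1 : ℝ) ^ 3 := le_self_pow₀ hnn1 (by norm_num)
  rcases lt_or_gt_of_ne (ix_ne hpq) with h | h
  · -- ix q < ix p, coordinate 0
    have h1 : (m p.1 : ℝ)⁻¹ * A e m (ix p) < x 0 := (hx 0 (mem_univ 0)).1
    have h2 : x 0 ≤ A e m (ix q) := hle 0
    have h3 := A_ratio (e := e) hm hmono h (le_ix p)
    have h4 : A e m (ix q) * m p.1 ≤ A e m (ix p) :=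
      le_trans (mul_le_mul_of_nonneg_left hcube hq.le) h3
    have h5 : A e m (ix q) ≤ (m p.1 : ℝ)⁻¹ * A e m (ix p) := by
      rw [inv_mul_eq_div, le_div_iff₀ (by linarith)]
      exact h4
    linarith
  · have h1 : (m p.1 : ℝ)⁻¹ * (A e m (ix p))⁻¹ < x 1 := (hx 1 (mem_univ 1)).1
    have h2 : x 1 ≤ (A e m (ix q))⁻¹ := hle 1
    have h3 := A_ratio (e := e) hm hmono h ((le_ix p).trans h.le)
    have h4 : A e m (ix p) * m p.1 ≤ A e m (ix q) :=
      le_trans (mul_le_mul_of_nonneg_left hcube hp.le) h3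
    have h5 : (A e m (ix q))⁻¹ ≤ (m p.1 : ℝ)⁻¹ * (A e m (ix p))⁻¹ := by
      rw [← mul_inv]
      apply inv_anti₀ (by positivity)
      linarith
    linarith

lemma cross_lt (hm : ∀ j, 2 ≤ m j) (hmono : Monotone m) {p q : ℕ × ℕ} (hj : p.1 = q.1)
    (h : ix p < ix q) {x x' : Fin (e + 2) → ℝ} (hx : x ∈ R e m p) (hx' : x' ∈ R e m q) :
    (nn e m p.1 : ℝ) ^ 2 ≤ ∏ r, (x ⊔ x') r := by
  have hm0 : (2:ℝ) ≤ m p.1 := by exact_mod_cast hm p.1
  have hp := A_pos (e := e) hm (ix p)
  have hq := A_pos (e := e) hm (ix q)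
  have hnn1 := nn_pos (e := e) hm p.1
  set z : Fin (e + 2) → ℝ := Fin.cons (A e m (ix q)) (Fin.cons (A e m (ix p))⁻¹ fun _ => 1) with hz
  have hz0 : ∀ r, 0 < z r := by
    apply forall_fin
    · exact hq
    · exact inv_pos.mpr hp
    · intro r; exact one_pos
  have h1 : ∏ r, ((m p.1 : ℝ)⁻¹ * z r) ≤ ∏ r, (x ⊔ x') r := by
    apply Finset.prod_le_prod
    · intro r _
      have := hz0 r
      positivity
    · intro r _
      refine forall_fin (Q := fun r => (m p.1 : ℝ)⁻¹ * z r ≤ (x ⊔ x') r) ?_ ?_ ?_ r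
      · have h5 := (hx' 0 (mem_univ 0)).1.le
        rw [← hj] at h5
        exact le_trans h5 ((le_sup_right : x' ≤ x ⊔ x') 0)
      · exact le_trans (hx 1 (mem_univ 1)).1.le ((le_sup_left : x ≤ x ⊔ x') 1)
      · intro r
        exact le_trans (hx r.succ.succ (mem_univ _)).1.le ((le_sup_left : x ≤ x ⊔ x') r.succ.succ)
  refine le_trans ?_ h1
  rw [Finset.prod_mul_distrib, Finset.prod_const, Finset.card_univ, Fintype.card_fin, hz,
    prod_cons2]
  have h2 := A_ratio (e := e) hm hmono h ((le_ix p).trans h.le)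
  have h3 : ((m p.1 : ℝ)⁻¹) ^ (e + 2) = (nn e m p.1 : ℝ)⁻¹ := by
    unfold nn; push_cast; rw [inv_pow]
  rw [h3]
  have h4 : (nn e m p.1 : ℝ) ^ 3 ≤ A e m (ix q) * (A e m (ix p))⁻¹ := by
    rw [← div_eq_mul_inv, le_div_iff₀ hp]
    linarith
  calc (nn e m p.1 : ℝ) ^ 2 = (nn e m p.1 : ℝ)⁻¹ * (nn e m p.1 : ℝ) ^ 3 := by
        field_simp
    _ ≤ _ := mul_le_mul_of_nonneg_left h4 (by positivity)

/-- measurability of the density -/
lemma meas_dens {d : ℕ} (G : Measure (Fin d → ℝ)) [SFinite G] : Measurable (dens G) := by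
  unfold dens
  have h : Measurable (Function.uncurry fun (x y : Fin d → ℝ) =>
      {y | x ≤ y}.indicator (fun y => ENNReal.ofReal (1 / ∏ r, y r)) y) := by
    have h1 : (Function.uncurry fun (x y : Fin d → ℝ) =>
        {y | x ≤ y}.indicator (fun y => ENNReal.ofReal (1 / ∏ r, y r)) y) =
        {q : (Fin d → ℝ) × (Fin d → ℝ) | q.1 ≤ q.2}.indicator
          (fun q => ENNReal.ofReal (1 / ∏ r, q.2 r)) := by
      funext q
      by_cases hq : q.1 ≤ q.2
      · simp [Function.uncurry, hq]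
      · simp [Function.uncurry, hq]
    rw [h1]
    apply Measurable.indicator
    · exact meas_v.comp measurable_snd
    · exact measurableSet_le measurable_fst measurable_snd
  exact h.lintegral_prod_right

lemma tsum_wt (hm : ∀ j, 2 ≤ m j) : ∑' p : ℕ × ℕ, ENNReal.ofReal (wt e m p) = 1 := by
  rw [ENNReal.tsum_prod']
  have h1 : ∀ j : ℕ, ∑' k : ℕ, ENNReal.ofReal (wt e m (j, k)) = (1 / 2 : ℝ≥0∞) ^ (j + 1) := by
    intro j
    have hn := nn_pos (e := e) hm j
    rw [tsum_eq_sum (s := Finset.range ((nn e m j) ^ 3))]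
    · rw [← ENNReal.ofReal_sum_of_nonneg fun k _ => wt_nonneg e m (j, k)]
      have h2 : ∑ k ∈ Finset.range ((nn e m j) ^ 3), wt e m (j, k) = (1 / 2 : ℝ) ^ (j + 1) := by
        have h3 : ∀ k ∈ Finset.range ((nn e m j) ^ 3), wt e m (j, k) =
            (1 / 2) ^ (j + 1) / (nn e m j : ℝ) ^ 3 := by
          intro k hk
          unfold wt
          rw [if_pos (Finset.mem_range.mp hk)]
        rw [Finset.sum_congr rfl h3, Finset.sum_const, Finset.card_range, nsmul_eq_mul]
        push_cast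
        field_simp
      rw [h2, ENNReal.ofReal_pow (by norm_num)]
      congr 1
      rw [ENNReal.ofReal_div_of_pos two_pos]
      simp
    · intro k hk
      unfold wt
      rw [if_neg (by simpa using hk)]
      simp
  simp_rw [h1]
  rw [ENNReal.tsum_geometric_add_one, one_div, ENNReal.one_sub_inv_two, inv_inv]
  exact ENNReal.inv_mul_cancel two_ne_zero ENNReal.ofNat_ne_top

lemma G0_prob (hm : ∀ j, 2 ≤ m j) : IsProbabilityMeasure (G0 e m) := by
  constructor
  unfold G0
  rw [Measure.sum_apply _ MeasurableSet.univ]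
  simp only [Measure.smul_apply, measure_univ, smul_eq_mul, mul_one]
  exact tsum_wt hm

lemma G0_mixing (hm : ∀ j, 2 ≤ m j) : Mixing (G0 e m) := by
  refine ⟨G0_prob hm, ?_⟩
  unfold G0
  rw [Measure.ae_sum_iff]
  intro p
  apply Measure.ae_smul_measure
  rw [ae_dirac_iff]
  · exact yy_pos hm p
  · exact meas_pos

lemma G0_atZero (hm : ∀ j, 2 ≤ m j) : atZero (G0 e m) = 1 := by
  unfold atZero G0
  rw [lintegral_sum_measure]
  have h1 : ∀ p : ℕ × ℕ, ∫⁻ y, ENNReal.ofReal (1 / ∏ r, y r)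
      ∂(ENNReal.ofReal (wt e m p) • Measure.dirac (yy e m p)) = ENNReal.ofReal (wt e m p) := by
    intro p
    rw [lintegral_smul_measure, lintegral_dirac' _ meas_v, prod_yy hm]
    simp
  simp_rw [h1]
  exact tsum_wt hm

lemma dens_G0 (hm : ∀ j, 2 ≤ m j) (hmono : Monotone m) (p : ℕ × ℕ) {x : Fin (e + 2) → ℝ}
    (hx : x ∈ R e m p) : dens (G0 e m) x = ENNReal.ofReal (wt e m p) := by
  unfold dens G0
  rw [lintegral_sum_measure, tsum_eq_single p]
  · rw [lintegral_smul_measure, lintegral_dirac' _ (meas_v.indicator (meas_ge x)),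
      indicator_of_mem (by exact R_le hx), prod_yy hm]
    simp
  · intro q hq
    rw [lintegral_smul_measure, lintegral_dirac' _ (meas_v.indicator (meas_ge x)),
      indicator_of_notMem (by exact R_sep hm hmono hq hx)]
    simp

lemma meas_R (p : ℕ × ℕ) : MeasurableSet (R e m p) :=
  MeasurableSet.univ_pi fun _ => measurableSet_Ioc

lemma law_restrict (hm : ∀ j, 2 ≤ m j) (hmono : Monotone m) (p : ℕ × ℕ) :
    (law (G0 e m)).restrict (R e m p) =
      ENNReal.ofReal (wt e m p) • (volume.restrict (R e m p)) := by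
  have := G0_prob (e := e) hm
  unfold law
  rw [restrict_withDensity (meas_R p), Measure.restrict_restrict_of_subset]
  · rw [← withDensity_const]
    apply withDensity_congr_ae
    filter_upwards [ae_restrict_mem (meas_R p)] with x hx
    exact dens_G0 hm hmono p hx
  · intro x hx
    exact R_pos hm hx

lemma vol_R_le (hm : ∀ j, 2 ≤ m j) (p : ℕ × ℕ) : volume (R e m p) ≤ 1 := by
  unfold R
  rw [Real.volume_pi_Ioc]
  rw [← ENNReal.ofReal_prod_of_nonneg]
  · rw [← ENNReal.ofReal_one]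
    apply ENNReal.ofReal_le_ofReal
    rw [← prod_yy (e := e) hm p]
    apply Finset.prod_le_prod
    · intro r _
      have h1 := yy_pos (e := e) hm p r
      have h2 : (m p.1 : ℝ)⁻¹ ≤ 1 := by
        apply inv_le_one_of_one_le₀
        have := hm p.1
        exact_mod_cast (by omega : 1 ≤ m p.1)
      nlinarith
    · intro r _
      have h1 := yy_pos (e := e) hm p r
      have h2 : (0:ℝ) ≤ (m p.1 : ℝ)⁻¹ := by positivity
      nlinarith
  · intro r _
    have h1 := yy_pos (e := e) hm p r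
    have h2 : (m p.1 : ℝ)⁻¹ ≤ 1 := by
      apply inv_le_one_of_one_le₀
      have := hm p.1
      exact_mod_cast (by omega : 1 ≤ m p.1)
    nlinarith

lemma law_R_le (hm : ∀ j, 2 ≤ m j) (hmono : Monotone m) (p : ℕ × ℕ) :
    law (G0 e m) (R e m p) ≤ ENNReal.ofReal (wt e m p) := by
  have h := congrArg (fun μ => μ (R e m p)) (law_restrict (e := e) hm hmono p)
  simp only [Measure.restrict_apply_self, Measure.smul_apply, smul_eq_mul] at h
  rw [h]
  calc _ ≤ ENNReal.ofReal (wt e m p) * 1 := by gcongr; exact vol_R_le hm p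
    _ = _ := mul_one _

/-- `∫_{R p} 1/|x| dx = (log m)^d` -/
lemma integral_R (hm : ∀ j, 2 ≤ m j) (p : ℕ × ℕ) :
    ∫ x in R e m p, (∏ r, x r)⁻¹ = (Real.log (m p.1)) ^ (e + 2) := by
  unfold R
  rw [volume_pi, Measure.restrict_pi_pi]
  have h1 : ∀ x : Fin (e + 2) → ℝ, (∏ r, x r)⁻¹ = ∏ r, (x r)⁻¹ := fun x => by
    rw [Finset.prod_inv_distrib]
  simp_rw [h1]
  rw [integral_fintype_prod_eq_prod (fun _ (t : ℝ) => t⁻¹)]
  have hm0 : (0:ℝ) < m p.1 := by
    have := hm p.1
    exact_mod_cast (by omega : 0 < m p.1)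
  have h2 : ∀ r : Fin (e + 2), ∫ t in Ioc ((m p.1 : ℝ)⁻¹ * yy e m p r) (yy e m p r), t⁻¹ =
      Real.log (m p.1) := by
    intro r
    have h3 := yy_pos (e := e) hm p r
    have h4 : (m p.1 : ℝ)⁻¹ ≤ 1 := by
      apply inv_le_one_of_one_le₀
      have := hm p.1
      exact_mod_cast (by omega : 1 ≤ m p.1)
    rw [← intervalIntegral.integral_of_le (by nlinarith), integral_inv_of_pos (by positivity) h3]
    congr 1
    field_simp
  simp_rw [h2]
  simp

/-- the union of the good parts of the boxes of block `j` -/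
noncomputable def U (e : ℕ) (m : ℕ → ℕ) (j : ℕ) : Set (Fin (e + 2) → ℝ) :=
  ⋃ k ∈ Finset.range ((nn e m j) ^ 3), R e m (j, k)

/-- the truncated summand -/
noncomputable def hh (e : ℕ) (m : ℕ → ℕ) (j : ℕ) (x : Fin (e + 2) → ℝ) : ℝ :=
  (U e m j).indicator (fun x => (nn e m j : ℝ)⁻¹ * (∏ r, x r)⁻¹) x

lemma meas_U (j : ℕ) : MeasurableSet (U e m j) :=
  Finset.measurableSet_biUnion _ fun k _ => meas_R (j, k)

lemma meas_g (j : ℕ) : Measurable fun x : Fin (e + 2) → ℝ => (nn e m j : ℝ)⁻¹ * (∏ r, x r)⁻¹ := by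
  apply Measurable.const_mul
  apply Measurable.inv
  fun_prop

lemma meas_hh (j : ℕ) : Measurable (hh e m j) := (meas_g j).indicator (meas_U j)

lemma g_le_one (hm : ∀ j, 2 ≤ m j) {p : ℕ × ℕ} {x : Fin (e + 2) → ℝ} (hx : x ∈ R e m p) :
    (nn e m p.1 : ℝ)⁻¹ * (∏ r, x r)⁻¹ ≤ 1 := by
  have hn := nn_pos (e := e) hm p.1
  have hm0 : (2:ℝ) ≤ m p.1 := by exact_mod_cast hm p.1
  have h1 : (nn e m p.1 : ℝ)⁻¹ ≤ ∏ r, x r := by
    calc (nn e m p.1 : ℝ)⁻¹ = ∏ r, ((m p.1 : ℝ)⁻¹ * yy e m p r) := by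
          rw [Finset.prod_mul_distrib, prod_yy hm, Finset.prod_const, Finset.card_univ,
            Fintype.card_fin]
          unfold nn; push_cast; rw [inv_pow, mul_one]
      _ ≤ ∏ r, x r := by
          apply Finset.prod_le_prod
          · intro r _
            have := yy_pos (e := e) hm p r
            positivity
          · intro r _
            exact (hx r (mem_univ r)).1.le
  have h2 : (∏ r, x r)⁻¹ ≤ nn e m p.1 := by
    rw [← inv_inv (nn e m p.1 : ℝ)]
    exact inv_anti₀ (by positivity) h1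
  calc (nn e m p.1 : ℝ)⁻¹ * (∏ r, x r)⁻¹ ≤ (nn e m p.1 : ℝ)⁻¹ * nn e m p.1 :=
        mul_le_mul_of_nonneg_left h2 (by positivity)
    _ = 1 := inv_mul_cancel₀ (by positivity)

lemma g_nonneg (hm : ∀ j, 2 ≤ m j) {p : ℕ × ℕ} {x : Fin (e + 2) → ℝ} (hx : x ∈ R e m p) :
    0 ≤ (nn e m p.1 : ℝ)⁻¹ * (∏ r, x r)⁻¹ := by
  have h := R_pos hm hx
  have h2 : 0 ≤ ∏ r, x r := Finset.prod_nonneg fun r _ => (h r).le
  positivity

lemma mem_U {j : ℕ} {x : Fin (e + 2) → ℝ} :
    x ∈ U e m j ↔ ∃ k < (nn e m j) ^ 3, x ∈ R e m (j, k) := by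
  unfold U; simp

lemma hh_nonneg (hm : ∀ j, 2 ≤ m j) (j : ℕ) (x : Fin (e + 2) → ℝ) : 0 ≤ hh e m j x := by
  unfold hh
  by_cases h : x ∈ U e m j
  · rw [indicator_of_mem h]
    obtain ⟨k, _, hk⟩ := mem_U.mp h
    exact g_nonneg (p := (j, k)) hm hk
  · rw [indicator_of_notMem h]

lemma hh_le_one (hm : ∀ j, 2 ≤ m j) (j : ℕ) (x : Fin (e + 2) → ℝ) : hh e m j x ≤ 1 := by
  unfold hh
  by_cases h : x ∈ U e m j
  · rw [indicator_of_mem h]
    obtain ⟨k, _, hk⟩ := mem_U.mp h
    exact g_le_one (p := (j, k)) hm hk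
  · rw [indicator_of_notMem h]
    exact zero_le_one

lemma integral_hh (hm : ∀ j, 2 ≤ m j) (hmono : Monotone m) (j : ℕ) :
    ∫ x, hh e m j x ∂(law (G0 e m)) =
      (1 / 2) ^ (j + 1) * (Real.log (m j)) ^ (e + 2) / nn e m j := by
  have hn := nn_pos (e := e) hm j
  unfold hh
  rw [integral_indicator (meas_U j)]
  unfold U
  rw [integral_biUnion_finset]
  · have h1 : ∀ k ∈ Finset.range ((nn e m j) ^ 3),
        ∫ x in R e m (j, k), (nn e m j : ℝ)⁻¹ * (∏ r, x r)⁻¹ ∂(law (G0 e m)) =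
        ((1 / 2) ^ (j + 1) / (nn e m j : ℝ) ^ 3) *
          ((nn e m j : ℝ)⁻¹ * (Real.log (m j)) ^ (e + 2)) := by
      intro k hk
      rw [law_restrict hm hmono, integral_smul_measure, integral_const_mul, integral_R hm,
        ENNReal.toReal_ofReal (wt_nonneg e m _), smul_eq_mul]
      unfold wt
      rw [if_pos (by simpa using hk)]
    rw [Finset.sum_congr rfl h1, Finset.sum_const, Finset.card_range, nsmul_eq_mul]
    push_cast
    field_simp
  · intro k _
    exact meas_R _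
  · intro k _ k' _ hkk
    rw [Function.onFun, Set.disjoint_left]
    intro x hx hx'
    exact R_sep hm hmono (p := (j, k)) (q := (j, k')) (by simpa using hkk.symm) hx (R_le hx')
  · intro k _
    have hfin : law (G0 e m) (R e m (j, k)) ≠ ⊤ :=
      ((law_R_le hm hmono (j, k)).trans_lt ENNReal.ofReal_lt_top).ne
    refine Measure.integrableOn_of_bounded (M := 1) hfin (meas_g j).aestronglyMeasurable ?_
    filter_upwards [ae_restrict_mem (meas_R (j, k))] with x hx
    rw [Real.norm_of_nonneg (g_nonneg (p := (j, k)) hm hx)]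
    exact g_le_one (p := (j, k)) hm hx

end constr

/-! ### Probability -/

section prob

variable {e : ℕ} {m : ℕ → ℕ} {Ω : Type*} [MeasurableSpace Ω] {P : Measure Ω}
  [IsProbabilityMeasure P] {X : ℕ → Ω → (Fin (e + 2) → ℝ)}

/-- the expected value of the sum -/
noncomputable def ev (e : ℕ) (m : ℕ → ℕ) (j : ℕ) : ℝ := (1 / 2) ^ (j + 1) * (Real.log (m j)) ^ (e + 2)

lemma ev_pos (hm : ∀ j, 2 ≤ m j) (j : ℕ) : 0 < ev e m j := by
  unfold ev
  have : (1:ℝ) < m j := by exact_mod_cast (by have := hm j; omega : 1 < m j)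
  have := Real.log_pos this
  positivity

lemma prob_W (hm : ∀ j, 2 ≤ m j) (hmono : Monotone m) (hX : ∀ i, Measurable (X i))
    (hind : iIndepFun X P) (hlaw : ∀ i, P.map (X i) = law (G0 e m)) (j : ℕ) :
    P {ω | ∑ i ∈ Finset.range (nn e m j), hh e m j (X i ω) < ev e m j / 2} ≤
      ENNReal.ofReal (4 / ev e m j) := by
  have hn := nn_pos (e := e) hm j
  have hev := ev_pos (e := e) hm j
  set Y : ℕ → Ω → ℝ := fun i ω => hh e m j (X i ω) with hY
  have hYm : ∀ i, Measurable (Y i) := fun i => (meas_hh j).comp (hX i)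
  have hY0 : ∀ i ω, 0 ≤ Y i ω := fun i ω => hh_nonneg hm j _
  have hY1 : ∀ i ω, Y i ω ≤ 1 := fun i ω => hh_le_one hm j _
  have hYi : ∀ i, P[Y i] = ev e m j / nn e m j := by
    intro i
    have h1 := integral_hh (e := e) hm hmono j
    rw [← hlaw i, integral_map (hX i).aemeasurable (meas_hh j).aestronglyMeasurable] at h1
    exact h1
  have hYL : ∀ i, MemLp (Y i) 2 P := fun i =>
    MemLp.of_bound (hYm i).aestronglyMeasurable 1 (ae_of_all _ fun ω => by
      rw [Real.norm_of_nonneg (hY0 i ω)]; exact hY1 i ω)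
  have hYint : ∀ i, Integrable (Y i) P := fun i => (hYL i).integrable (by norm_num)
  set W : Ω → ℝ := ∑ i ∈ Finset.range (nn e m j), Y i with hW
  have hWL : MemLp W 2 P := memLp_finsetSum' _ fun i _ => hYL i
  have hWE : P[W] = ev e m j := by
    rw [hW]
    simp only [Finset.sum_apply]
    rw [integral_finsetSum _ fun i _ => hYint i]
    have : ∀ i ∈ Finset.range (nn e m j), ∫ ω, Y i ω ∂P = ev e m j / nn e m j := fun i _ => hYi i
    rw [Finset.sum_congr rfl this, Finset.sum_const, Finset.card_range, nsmul_eq_mul]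
    field_simp
  have hvar : variance W P ≤ ev e m j := by
    rw [hW, IndepFun.variance_sum (fun i _ => hYL i)]
    · calc ∑ i ∈ Finset.range (nn e m j), variance (Y i) P
          ≤ ∑ i ∈ Finset.range (nn e m j), ev e m j / nn e m j := by
            apply Finset.sum_le_sum
            intro i _
            refine (variance_le_expectation_sq (hYm i).aestronglyMeasurable).trans ?_
            rw [← hYi i]
            apply integral_mono_of_nonneg (ae_of_all _ fun ω => sq_nonneg _) (hYint i)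
            exact ae_of_all _ fun ω => by
              show (Y i ω) ^ 2 ≤ Y i ω
              have := hY0 i ω
              have := hY1 i ω
              nlinarith
        _ = ev e m j := by
            rw [Finset.sum_const, Finset.card_range, nsmul_eq_mul]
            field_simp
    · intro a _ b _ hab
      exact (hind.indepFun hab).comp (meas_hh j) (meas_hh j)
  have hcheb := meas_ge_le_variance_div_sq hWL (c := ev e m j / 2) (by positivity)
  refine le_trans (measure_mono ?_) (hcheb.trans ?_)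
  · intro ω hω
    have h2 : W ω < ev e m j / 2 := by
      have h3 : W ω = ∑ i ∈ Finset.range (nn e m j), hh e m j (X i ω) := by
        rw [hW, Finset.sum_apply]
      rw [h3]; exact hω
    show ev e m j / 2 ≤ |W ω - P[W]|
    rw [hWE, abs_sub_comm]
    refine le_trans ?_ (le_abs_self _)
    linarith
  · apply ENNReal.ofReal_le_ofReal
    rw [div_le_div_iff₀ (by positivity) hev]
    nlinarith

/-- two of the first `n_j` observations in the good part of the same box of block `j` -/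
def coin (X : ℕ → Ω → (Fin (e + 2) → ℝ)) (m : ℕ → ℕ) (j : ℕ) : Set Ω :=
  ⋃ q ∈ (Finset.range (nn e m j)).offDiag, ⋃ k ∈ Finset.range ((nn e m j) ^ 3),
    (X q.1 ⁻¹' R e m (j, k)) ∩ (X q.2 ⁻¹' R e m (j, k))

lemma prob_coin (hm : ∀ j, 2 ≤ m j) (hmono : Monotone m) (hX : ∀ i, Measurable (X i))
    (hind : iIndepFun X P) (hlaw : ∀ i, P.map (X i) = law (G0 e m)) (j : ℕ) :
    P (coin X m j) ≤ ENNReal.ofReal (1 / nn e m j) := by
  have hn := nn_pos (e := e) hm j
  have hpr : ∀ i k, P (X i ⁻¹' R e m (j, k)) ≤ ENNReal.ofReal (1 / (nn e m j : ℝ) ^ 3) := by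
    intro i k
    rw [← Measure.map_apply (hX i) (meas_R _), hlaw]
    refine (law_R_le hm hmono (j, k)).trans (ENNReal.ofReal_le_ofReal ?_)
    unfold wt
    split_ifs
    · gcongr
      exact pow_le_one₀ (by norm_num) (by norm_num)
    · positivity
  unfold coin
  calc P (⋃ q ∈ (Finset.range (nn e m j)).offDiag, ⋃ k ∈ Finset.range ((nn e m j) ^ 3),
        (X q.1 ⁻¹' R e m (j, k)) ∩ (X q.2 ⁻¹' R e m (j, k)))
      ≤ ∑ q ∈ (Finset.range (nn e m j)).offDiag, P (⋃ k ∈ Finset.range ((nn e m j) ^ 3),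
        (X q.1 ⁻¹' R e m (j, k)) ∩ (X q.2 ⁻¹' R e m (j, k))) := measure_biUnion_finset_le _ _
    _ ≤ ∑ q ∈ (Finset.range (nn e m j)).offDiag, ENNReal.ofReal (1 / (nn e m j : ℝ) ^ 3) := by
        apply Finset.sum_le_sum
        intro q hq
        calc _ ≤ ∑ k ∈ Finset.range ((nn e m j) ^ 3),
              P ((X q.1 ⁻¹' R e m (j, k)) ∩ (X q.2 ⁻¹' R e m (j, k))) :=
              measure_biUnion_finset_le _ _
          _ ≤ ∑ k ∈ Finset.range ((nn e m j) ^ 3),
              ENNReal.ofReal (1 / (nn e m j : ℝ) ^ 3 * (1 / (nn e m j : ℝ) ^ 3)) := by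
              apply Finset.sum_le_sum
              intro k _
              have hne : q.1 ≠ q.2 := (Finset.mem_offDiag.mp hq).2.2
              rw [(hind.indepFun hne).measure_inter_preimage_eq_mul _ _ (meas_R _) (meas_R _),
                ENNReal.ofReal_mul (by positivity)]
              exact mul_le_mul' (hpr _ _) (hpr _ _)
          _ = ENNReal.ofReal (1 / (nn e m j : ℝ) ^ 3) := by
              rw [Finset.sum_const, Finset.card_range, nsmul_eq_mul, ← ENNReal.ofReal_natCast,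
                ← ENNReal.ofReal_mul (by positivity)]
              congr 1
              push_cast
              field_simp
    _ ≤ ENNReal.ofReal (1 / nn e m j) := by
        rw [Finset.sum_const, nsmul_eq_mul, ← ENNReal.ofReal_natCast,
          ← ENNReal.ofReal_mul (by positivity)]
        apply ENNReal.ofReal_le_ofReal
        rw [Finset.offDiag_card, Finset.card_range]
        have h1 : (((nn e m j) * (nn e m j) - (nn e m j) : ℕ) : ℝ) ≤
            (nn e m j : ℝ) * (nn e m j : ℝ) := by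
          exact_mod_cast Nat.sub_le _ _
        calc _ ≤ (nn e m j : ℝ) * (nn e m j : ℝ) * (1 / (nn e m j : ℝ) ^ 3) :=
              mul_le_mul_of_nonneg_right h1 (by positivity)
          _ = 1 / nn e m j := by field_simp

lemma det_final (hm : ∀ j, 2 ≤ m j) (hmono : Monotone m) (j : ℕ)
    (x : Fin (nn e m j) → Fin (e + 2) → ℝ) (hx : ∀ i r, 0 < x i r)
    (G : Measure (Fin (e + 2) → ℝ)) (hG : IsMLE x G)
    (hcoin : ∀ i i', i ≠ i' → ∀ k < (nn e m j) ^ 3, ¬ (x i ∈ R e m (j, k) ∧ x i' ∈ R e m (j, k)))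
    (hW : ev e m j / 2 ≤ ∑ i, hh e m j (x i)) :
    ENNReal.ofReal (ev e m j / 4) ≤ atZero G + 1 := by
  classical
  have hn := nn_pos (e := e) hm j
  set I : Finset (Fin (nn e m j)) := Finset.univ.filter fun i => x i ∈ U e m j with hI
  have h1 : ∑ i ∈ I, (∏ r, x i r)⁻¹ = nn e m j * ∑ i, hh e m j (x i) := by
    rw [hI, Finset.sum_filter, Finset.mul_sum]
    apply Finset.sum_congr rfl
    intro i _
    unfold hh
    by_cases h : x i ∈ U e m j
    · rw [if_pos h, indicator_of_mem h]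
      field_simp
    · rw [if_neg h, indicator_of_notMem h, mul_zero]
  have h2 : ENNReal.ofReal (∑ i ∈ I, (∏ r, x i r)⁻¹) ≤
      ENNReal.ofReal (2 * nn e m j) * ∑ i ∈ I, dens G (x i) := by
    rw [ENNReal.ofReal_sum_of_nonneg fun i _ =>
      inv_nonneg.mpr (Finset.prod_nonneg fun r _ => (hx i r).le), Finset.mul_sum]
    apply Finset.sum_le_sum
    intro i _
    have := hG.lower hx i
    rwa [one_div] at this
  have h3 := sum_dens_le I x G
  have h4 : ∑ q ∈ I.offDiag, dens G (x q.1 ⊔ x q.2) ≤ 1 := by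
    calc ∑ q ∈ I.offDiag, dens G (x q.1 ⊔ x q.2)
        ≤ ∑ q ∈ I.offDiag, ENNReal.ofReal (1 / (nn e m j : ℝ) ^ 2) := by
          apply Finset.sum_le_sum
          intro q hq
          obtain ⟨ha, hb, hne⟩ := Finset.mem_offDiag.mp hq
          obtain ⟨k, hk, hk2⟩ := mem_U.mp (Finset.mem_filter.mp ha).2
          obtain ⟨k', hk', hk2'⟩ := mem_U.mp (Finset.mem_filter.mp hb).2
          have hkk : k ≠ k' := by
            rintro rfl
            exact hcoin _ _ hne k hk ⟨hk2, hk2'⟩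
          have hkk2 : ((j, k) : ℕ × ℕ) ≠ (j, k') := by simpa using hkk
          have hprod : (nn e m j : ℝ) ^ 2 ≤ ∏ r, (x q.1 ⊔ x q.2) r := by
            rcases lt_or_gt_of_ne (ix_ne hkk2) with h | h
            · exact cross_lt (p := (j, k)) (q := (j, k')) hm hmono rfl h hk2 hk2'
            · rw [sup_comm]
              exact cross_lt (p := (j, k')) (q := (j, k)) hm hmono rfl h hk2' hk2
          refine (dens_le hG.1 (x := x q.1 ⊔ x q.2) fun r => ?_).trans ?_
          · exact lt_of_lt_of_le (hx q.1 r) ((le_sup_left : x q.1 ≤ x q.1 ⊔ x q.2) r)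
          · apply ENNReal.ofReal_le_ofReal
            exact one_div_le_one_div_of_le (by positivity) hprod
      _ ≤ 1 := by
          rw [Finset.sum_const, nsmul_eq_mul, ← ENNReal.ofReal_natCast,
            ← ENNReal.ofReal_mul (by positivity), ← ENNReal.ofReal_one]
          apply ENNReal.ofReal_le_ofReal
          have h5 : (I.offDiag.card : ℝ) ≤ (nn e m j : ℝ) ^ 2 := by
            have h6 : I.card ≤ nn e m j := by
              have := Finset.card_le_univ I
              simpa using this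
            rw [Finset.offDiag_card]
            have h7 : I.card * I.card - I.card ≤ (nn e m j) ^ 2 := by
              calc I.card * I.card - I.card ≤ I.card * I.card := Nat.sub_le _ _
                _ ≤ (nn e m j) * (nn e m j) := Nat.mul_le_mul h6 h6
                _ = _ := by ring
            exact_mod_cast h7
          calc (I.offDiag.card : ℝ) * (1 / (nn e m j : ℝ) ^ 2) ≤
              (nn e m j : ℝ) ^ 2 * (1 / (nn e m j : ℝ) ^ 2) :=
                mul_le_mul_of_nonneg_right h5 (by positivity)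
            _ = 1 := by field_simp
  have h8 : ENNReal.ofReal (2 * nn e m j) * ENNReal.ofReal (ev e m j / 4) ≤
      ENNReal.ofReal (2 * nn e m j) * (atZero G + 1) := by
    calc ENNReal.ofReal (2 * nn e m j) * ENNReal.ofReal (ev e m j / 4)
        ≤ ENNReal.ofReal (∑ i ∈ I, (∏ r, x i r)⁻¹) := by
          rw [← ENNReal.ofReal_mul (by positivity), h1]
          apply ENNReal.ofReal_le_ofReal
          calc (2 * nn e m j) * (ev e m j / 4) = nn e m j * (ev e m j / 2) := by ring
            _ ≤ _ := mul_le_mul_of_nonneg_left hW (by positivity)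
      _ ≤ ENNReal.ofReal (2 * nn e m j) * ∑ i ∈ I, dens G (x i) := h2
      _ ≤ ENNReal.ofReal (2 * nn e m j) * (atZero G + 1) := by
          apply mul_le_mul_right
          exact h3.trans (add_le_add le_rfl h4)
  have h9 : ENNReal.ofReal (2 * nn e m j) ≠ 0 := by
    rw [Ne, ENNReal.ofReal_eq_zero, not_le]; positivity
  exact (ENNReal.mul_le_mul_iff_right h9 ENNReal.ofReal_ne_top).mp h8

lemma ae_pos {d : ℕ} (G : Measure (Fin d → ℝ)) : ∀ᵐ x ∂(law G), ∀ r, 0 < x r := by
  unfold law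
  exact (withDensity_absolutelyContinuous _ _).ae_le (ae_restrict_mem meas_pos)

lemma prob_main (hm : ∀ j, 2 ≤ m j) (hmono : Monotone m) (hX : ∀ i, Measurable (X i))
    (hind : iIndepFun X P) (hlaw : ∀ i, P.map (X i) = law (G0 e m)) (j : ℕ)
    (G : Ω → Measure (Fin (e + 2) → ℝ))
    (hG : ∀ᵐ ω ∂P, IsMLE (fun i : Fin (nn e m j) => X i ω) (G ω)) :
    1 ≤ P {ω | ENNReal.ofReal (ev e m j / 4) ≤ atZero (G ω) + 1} +
      (ENNReal.ofReal (4 / ev e m j) + ENNReal.ofReal (1 / nn e m j)) := by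
  have hpos : ∀ᵐ ω ∂P, ∀ i, ∀ r, 0 < X i ω r := by
    rw [ae_all_iff]
    intro i
    have h1 := ae_pos (G0 e m)
    rw [← hlaw i] at h1
    exact (ae_map_iff (hX i).aemeasurable meas_pos).mp h1
  have hnull : P {ω | ¬ (IsMLE (fun i : Fin (nn e m j) => X i ω) (G ω) ∧ ∀ i, ∀ r, 0 < X i ω r)} = 0 :=
    hG.and hpos
  have hcov : (univ : Set Ω) ⊆ {ω | ENNReal.ofReal (ev e m j / 4) ≤ atZero (G ω) + 1} ∪
      (({ω | ∑ i ∈ Finset.range (nn e m j), hh e m j (X i ω) < ev e m j / 2} ∪ coin X m j) ∪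
      {ω | ¬ (IsMLE (fun i : Fin (nn e m j) => X i ω) (G ω) ∧ ∀ i, ∀ r, 0 < X i ω r)}) := by
    intro ω _
    by_contra hcon
    simp only [mem_union, not_or] at hcon
    obtain ⟨h1, ⟨h2, h3⟩, h4⟩ := hcon
    have h4' : IsMLE (fun i : Fin (nn e m j) => X i ω) (G ω) ∧ ∀ i, ∀ r, 0 < X i ω r := by
      by_contra hc
      exact h4 hc
    apply h1
    refine det_final hm hmono j (fun i => X i ω) (fun i r => h4'.2 i r) (G ω) h4'.1 ?_ ?_
    · intro i i' hii k hk hc
      apply h3
      unfold coin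
      simp only [mem_iUnion]
      refine ⟨((i : ℕ), (i' : ℕ)), ?_, k, Finset.mem_range.mpr hk, hc⟩
      rw [Finset.mem_offDiag]
      refine ⟨Finset.mem_range.mpr i.2, Finset.mem_range.mpr i'.2, ?_⟩
      intro hc2
      exact hii (Fin.ext hc2)
    · have h5 : ¬ (∑ i ∈ Finset.range (nn e m j), hh e m j (X i ω) < ev e m j / 2) := h2
      rw [not_lt, Finset.sum_range] at h5
      exact h5
  calc (1 : ℝ≥0∞) = P univ := measure_univ.symm
    _ ≤ _ := measure_mono hcov
    _ ≤ P {ω | ENNReal.ofReal (ev e m j / 4) ≤ atZero (G ω) + 1} +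
      ((P {ω | ∑ i ∈ Finset.range (nn e m j), hh e m j (X i ω) < ev e m j / 2} +
        P (coin X m j)) +
      P {ω | ¬ (IsMLE (fun i : Fin (nn e m j) => X i ω) (G ω) ∧ ∀ i, ∀ r, 0 < X i ω r)}) := by
        refine (measure_union_le _ _).trans (add_le_add le_rfl ?_)
        refine (measure_union_le _ _).trans (add_le_add ?_ le_rfl)
        exact measure_union_le _ _
    _ ≤ _ := by
        rw [hnull, add_zero]
        exact add_le_add le_rfl (add_le_add (prob_W hm hmono hX hind hlaw j)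
          (prob_coin hm hmono hX hind hlaw j))

end prob

/-- `law G` is a probability measure -/
lemma law_prob {d : ℕ} {G : Measure (Fin d → ℝ)} (hG : Mixing G) :
    IsProbabilityMeasure (law G) := by
  have := hG.1
  constructor
  unfold law
  rw [withDensity_apply _ MeasurableSet.univ, Measure.restrict_univ]
  unfold dens
  have h : Measurable (Function.uncurry fun (x y : Fin d → ℝ) =>
      {y | x ≤ y}.indicator (fun y => ENNReal.ofReal (1 / ∏ r, y r)) y) := by
    have h1 : (Function.uncurry fun (x y : Fin d → ℝ) =>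
        {y | x ≤ y}.indicator (fun y => ENNReal.ofReal (1 / ∏ r, y r)) y) =
        {q : (Fin d → ℝ) × (Fin d → ℝ) | q.1 ≤ q.2}.indicator
          (fun q => ENNReal.ofReal (1 / ∏ r, q.2 r)) := by
      funext q
      by_cases hq : q.1 ≤ q.2
      · simp [Function.uncurry, hq]
      · simp [Function.uncurry, hq]
    rw [h1]
    apply Measurable.indicator
    · exact meas_v.comp measurable_snd
    · exact measurableSet_le measurable_fst measurable_snd
  rw [lintegral_lintegral_swap h.aemeasurable]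
  have h2 : ∀ᵐ y ∂G, ∫⁻ x in {x | ∀ r, 0 < x r},
      {y | x ≤ y}.indicator (fun y => ENNReal.ofReal (1 / ∏ r, y r)) y = 1 := by
    filter_upwards [hG.2] with y hy
    have h3 : ∀ x : Fin d → ℝ, {y | x ≤ y}.indicator (fun y => ENNReal.ofReal (1 / ∏ r, y r)) y =
        (Iic y).indicator (fun _ => ENNReal.ofReal (1 / ∏ r, y r)) x := by
      intro x
      by_cases hx : x ≤ y
      · simp [hx]
      · simp [hx]
    simp_rw [h3]
    rw [lintegral_indicator measurableSet_Iic, lintegral_const, Measure.restrict_restrict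
      measurableSet_Iic, Measure.restrict_apply_univ]
    have h4 : Iic y ∩ {x | ∀ r, 0 < x r} = Set.pi univ fun r => Ioc 0 (y r) := by
      ext x
      simp only [mem_inter_iff, mem_Iic, Set.mem_ofPred_eq, Set.mem_pi, mem_univ, forall_true_left,
        mem_Ioc]
      constructor
      · rintro ⟨a, b⟩ r
        exact ⟨b r, a r⟩
      · intro a
        exact ⟨fun r => (a r).2, fun r => (a r).1⟩
    have h5 : 0 < ∏ r, y r := Finset.prod_pos fun r _ => hy r
    rw [h4, Real.volume_pi_Ioc]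
    simp only [sub_zero]
    rw [← ENNReal.ofReal_prod_of_nonneg fun r _ => (hy r).le, ← ENNReal.ofReal_mul (by positivity)]
    rw [one_div_mul_cancel h5.ne', ENNReal.ofReal_one]
  rw [lintegral_congr_ae h2]
  simp

open Asymptotics in
lemma choose_m (e : ℕ) (φ : ℕ → ℝ)
    (hφ : φ =o[atTop] fun n : ℕ => (Real.log n) ^ (e + 2)) :
    ∃ m : ℕ → ℕ, (∀ j, 2 ≤ m j) ∧ StrictMono m ∧
      ∀ j : ℕ, (j : ℝ) * |φ (nn e m j)| + j + 2 ≤ ev e m j / 4 := by
  have key : ∀ j : ℕ, ∀ᶠ k : ℕ in atTop, 2 ≤ k ∧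
      (j : ℝ) * |φ (k ^ (e + 2))| + j + 2 ≤
        (1 / 2) ^ (j + 1) * (Real.log k) ^ (e + 2) / 4 := by
    intro j
    set c : ℝ := (1 / 2) ^ (j + 1) / (8 * (j + 1) * ((e + 2 : ℕ) : ℝ) ^ (e + 2)) with hc
    have hc0 : 0 < c := by positivity
    have h1 := (hφ.def hc0)
    have h2 : Tendsto (fun k : ℕ => k ^ (e + 2)) atTop atTop :=
      tendsto_pow_atTop (by omega)
    have h3 := h2.eventually h1
    have h4 : Tendsto (fun k : ℕ => (1 / 2 : ℝ) ^ (j + 1) * (Real.log k) ^ (e + 2) / 8)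
        atTop atTop := by
      have h5 : Tendsto (fun k : ℕ => (Real.log k) ^ (e + 2)) atTop atTop :=
        (tendsto_pow_atTop (by omega)).comp
          (Real.tendsto_log_atTop.comp tendsto_natCast_atTop_atTop)
      have h6 := h5.const_mul_atTop (r := (1 / 2 : ℝ) ^ (j + 1)) (by positivity)
      exact h6.atTop_div_const (by norm_num)
    filter_upwards [h3, h4.eventually_ge_atTop ((j:ℝ) + 2), eventually_ge_atTop 2] with k hk1 hk2 hk3
    refine ⟨hk3, ?_⟩
    have hlog : 0 ≤ Real.log k := Real.log_natCast_nonneg k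
    have h7 : |φ (k ^ (e + 2))| ≤ c * (((e + 2 : ℕ) : ℝ) ^ (e + 2) * (Real.log k) ^ (e + 2)) := by
      have h8 : Real.log ((k ^ (e + 2) : ℕ) : ℝ) = ((e + 2 : ℕ) : ℝ) * Real.log k := by
        push_cast
        rw [Real.log_pow]
        push_cast
        ring
      rw [Real.norm_eq_abs, Real.norm_of_nonneg, h8, mul_pow] at hk1
      · exact hk1
      · rw [h8]
        positivity
    have h9 : (j:ℝ) * |φ (k ^ (e + 2))| ≤ (1 / 2) ^ (j + 1) * (Real.log k) ^ (e + 2) / 8 := by
      calc (j:ℝ) * |φ (k ^ (e + 2))| ≤ ((j:ℝ) + 1) * (c * (((e + 2 : ℕ) : ℝ) ^ (e + 2) * (Real.log k) ^ (e + 2))) := by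
            apply mul_le_mul (by linarith) h7 (abs_nonneg _) (by positivity)
        _ = (1 / 2) ^ (j + 1) * (Real.log k) ^ (e + 2) / 8 := by
            rw [hc]
            field_simp
    linarith
  obtain ⟨m, hm1, hm2⟩ := extraction_forall_of_eventually key
  exact ⟨m, fun j => (hm2 j).1, hm1, fun j => (hm2 j).2⟩

universe u

/-- The main estimate: no rate `o((log n)^d)`. -/
theorem main (e : ℕ) (φ : ℕ → ℝ)
    (hφ : φ =o[atTop] fun n : ℕ => (Real.log n) ^ (e + 2)) :
    ∃ (G₀ : Measure (Fin (e + 2) → ℝ)) (n : ℕ → ℕ), Mixing G₀ ∧ atZero G₀ = 1 ∧ StrictMono n ∧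
      ∀ {Ω : Type u} [MeasurableSpace Ω] (P : Measure Ω) [IsProbabilityMeasure P]
        (X : ℕ → Ω → (Fin (e + 2) → ℝ)), (∀ i, Measurable (X i)) → iIndepFun X P →
        (∀ i, P.map (X i) = law G₀) →
        ∀ Ghat : ℕ → Ω → Measure (Fin (e + 2) → ℝ),
        (∀ n, 1 ≤ n → ∀ᵐ ω ∂P, IsMLE (fun i : Fin n => X i ω) (Ghat n ω)) →
        ∀ M : ℝ, Tendsto (fun j => P {ω | ENNReal.ofReal (M * φ (n j)) < atZero (Ghat (n j) ω)})
          atTop (𝓝 1) := by
  obtain ⟨m, hm, hstrict, hbound⟩ := choose_m e φ hφ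
  have hmono := hstrict.monotone
  refine ⟨G0 e m, nn e m, G0_mixing hm, G0_atZero hm, ?_, ?_⟩
  · intro a b hab
    exact Nat.pow_lt_pow_left (hstrict hab) (by omega)
  intro Ω _ P _ X hX hind hlaw Ghat hMLE M
  have hevpos : ∀ j, 0 < ev e m j := ev_pos hm
  have hevge : ∀ j : ℕ, (j:ℝ) ≤ ev e m j := by
    intro j
    have h1 := hbound j
    have h2 : 0 ≤ (j:ℝ) * |φ (nn e m j)| := by positivity
    have h3 := hevpos j
    linarith
  have hnge : ∀ j : ℕ, (j:ℝ) ≤ nn e m j := by
    intro j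
    have h1 : j ≤ m j := hstrict.id_le j
    have h2 := nn_ge (e := e) hm j
    have h3 : (j:ℝ) ≤ m j := by exact_mod_cast h1
    linarith
  have hlim1 : Tendsto (fun j => ENNReal.ofReal (4 / ev e m j)) atTop (𝓝 0) := by
    rw [← ENNReal.ofReal_zero]
    apply ENNReal.tendsto_ofReal
    apply Tendsto.const_div_atTop
    exact tendsto_atTop_mono hevge tendsto_natCast_atTop_atTop
  have hlim2 : Tendsto (fun j => ENNReal.ofReal (1 / nn e m j)) atTop (𝓝 0) := by
    rw [← ENNReal.ofReal_zero]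
    apply ENNReal.tendsto_ofReal
    apply Tendsto.const_div_atTop
    exact tendsto_atTop_mono hnge tendsto_natCast_atTop_atTop
  have hlim : Tendsto (fun j => 1 - (ENNReal.ofReal (4 / ev e m j) +
      ENNReal.ofReal (1 / nn e m j))) atTop (𝓝 1) := by
    have h1 := hlim1.add hlim2
    have h2 := ENNReal.Tendsto.sub (tendsto_const_nhds (x := (1 : ℝ≥0∞))) h1
      (Or.inl ENNReal.one_ne_top)
    simpa using h2
  refine tendsto_of_tendsto_of_tendsto_of_le_of_le' hlim tendsto_const_nhds ?_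
    (Eventually.of_forall fun j => prob_le_one)
  filter_upwards [eventually_ge_atTop (Nat.ceil |M|)] with j hj
  have hMj : |M| ≤ j := (Nat.le_ceil _).trans (by exact_mod_cast hj)
  have hn1 : 1 ≤ nn e m j := by
    have := nn_pos (e := e) hm j
    exact_mod_cast this
  have h1 := prob_main hm hmono hX hind hlaw j (Ghat (nn e m j)) (hMLE _ hn1)
  have h2 : P {ω | ENNReal.ofReal (ev e m j / 4) ≤ atZero (Ghat (nn e m j) ω) + 1} ≤
      P {ω | ENNReal.ofReal (M * φ (nn e m j)) < atZero (Ghat (nn e m j) ω)} := by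
    apply measure_mono
    intro ω hω
    have hω' : ENNReal.ofReal (ev e m j / 4) ≤ atZero (Ghat (nn e m j) ω) + 1 := hω
    show ENNReal.ofReal (M * φ (nn e m j)) < atZero (Ghat (nn e m j) ω)
    by_cases htop : atZero (Ghat (nn e m j) ω) = ⊤
    · rw [htop]; exact ENNReal.ofReal_lt_top
    · rw [← ENNReal.ofReal_toReal htop] at hω' ⊢
      rw [← ENNReal.ofReal_one, ← ENNReal.ofReal_add ENNReal.toReal_nonneg zero_le_one,
        ENNReal.ofReal_le_ofReal_iff (by positivity)] at hω'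
      have h3 := hbound j
      have h4 : M * φ (nn e m j) ≤ j * |φ (nn e m j)| := by
        calc M * φ (nn e m j) ≤ |M * φ (nn e m j)| := le_abs_self _
          _ = |M| * |φ (nn e m j)| := abs_mul _ _
          _ ≤ _ := mul_le_mul_of_nonneg_right hMj (abs_nonneg _)
      have h5 : (0:ℝ) ≤ j := Nat.cast_nonneg j
      have h6 : (0:ℝ) ≤ (j:ℝ) * |φ (nn e m j)| := by positivity
      rw [ENNReal.ofReal_lt_ofReal_iff (by linarith)]
      linarith
  exact tsub_le_iff_right.mpr (h1.trans (add_le_add h2 le_rfl))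

/-- **Disproof of the `O_P((log n)^{d-1})` statement, for every `d ≥ 2`.** -/
theorem result (d : ℕ) (hd : 2 ≤ d) :
    -- the negated form of the problem, for this `d`
    (∃ G₀ : Measure (Fin d → ℝ), Mixing G₀ ∧ IsProbabilityMeasure (law G₀) ∧ atZero G₀ = 1 ∧
      ∀ {Ω : Type u} [MeasurableSpace Ω] (P : Measure Ω) [IsProbabilityMeasure P]
        (X : ℕ → Ω → (Fin d → ℝ)), (∀ i, Measurable (X i)) → iIndepFun X P →
        (∀ i, P.map (X i) = law G₀) →
        ∀ Ghat : ℕ → Ω → Measure (Fin d → ℝ),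
        (∀ n, 1 ≤ n → ∀ᵐ ω ∂P, IsMLE (fun i : Fin n => X i ω) (Ghat n ω)) →
        ∀ M : ℝ, ∀ ε : ℝ≥0∞, ε < 1 → ∃ᶠ n : ℕ in atTop,
          ε ≤ P {ω | ENNReal.ofReal (M * (Real.log n) ^ (d - 1)) < atZero (Ghat n ω)}) ∧
    -- no rate that is `o((log n)^d)`
    (∀ φ : ℕ → ℝ, (φ =o[atTop] fun n : ℕ => (Real.log n) ^ d) →
      ∃ (G₀ : Measure (Fin d → ℝ)) (n : ℕ → ℕ), Mixing G₀ ∧ IsProbabilityMeasure (law G₀) ∧
        atZero G₀ = 1 ∧ StrictMono n ∧
      ∀ {Ω : Type u} [MeasurableSpace Ω] (P : Measure Ω) [IsProbabilityMeasure P]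
        (X : ℕ → Ω → (Fin d → ℝ)), (∀ i, Measurable (X i)) → iIndepFun X P →
        (∀ i, P.map (X i) = law G₀) →
        ∀ Ghat : ℕ → Ω → Measure (Fin d → ℝ),
        (∀ n, 1 ≤ n → ∀ᵐ ω ∂P, IsMLE (fun i : Fin n => X i ω) (Ghat n ω)) →
        ∀ M : ℝ, Tendsto (fun j => P {ω | ENNReal.ofReal (M * φ (n j)) < atZero (Ghat (n j) ω)})
          atTop (𝓝 1)) := by
  obtain ⟨e, rfl⟩ : ∃ e, d = e + 2 := ⟨d - 2, by omega⟩
  constructor
  · have hφ : (fun n : ℕ => (Real.log n) ^ (e + 2 - 1)) =o[atTop]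
        fun n : ℕ => (Real.log n) ^ (e + 2) := by
      have h1 : Tendsto (fun n : ℕ => Real.log n) atTop atTop :=
        Real.tendsto_log_atTop.comp tendsto_natCast_atTop_atTop
      have h2 := (Asymptotics.isLittleO_pow_pow_atTop_of_lt (𝕜 := ℝ)
        (show e + 2 - 1 < e + 2 by omega)).comp_tendsto h1
      exact h2
    obtain ⟨G₀, n, hG, hz, hn, h⟩ := main.{u} e _ hφ
    refine ⟨G₀, hG, law_prob hG, hz, ?_⟩
    intro Ω _ P _ X hX hind hlaw Ghat hMLE M ε hε
    have h1 := h P X hX hind hlaw Ghat hMLE M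
    have h2 := h1.eventually (lt_mem_nhds hε)
    rw [frequently_atTop]
    intro N
    obtain ⟨j, hj1, hj2⟩ := (h2.and (eventually_ge_atTop N)).exists
    exact ⟨n j, hj2.trans (hn.id_le j), hj1.le⟩
  · intro φ hφ
    obtain ⟨G₀, n, hG, hz, hn, h⟩ := main.{u} e φ hφ
    exact ⟨G₀, n, hG, law_prob hG, hz, hn, h⟩

end Pool.Agent.Results.MP_a4ac49_pr.SizeAtOrigin
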